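import Pool.Agent.H254R3.IN.Count

/-!
# Isaacs–Navarro degree congruences from a perfect isometry

`p` is a prime, `O` a valuation subring of `ℂ` whose maximal ideal contains `p`, `G` a finite
group, `B` a `p`-block of `G` with defect group `D`, and `b` its Brauer correspondent in
`N_G(D)`.  If there is a perfect isometry `ℤIrr(B) → ℤIrr(b)` (in particular if `B` and `b` are
isotypic), then `c_B(γ k) = c_b(k)` for all integers `k`, with `γ = |G : N_G(D)|_{p'}`.
The defect group `D` is not assumed to be abelian.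
-/

namespace Pool.Agent.Results.MP_dc7914_al.IsotypyDegrees

open Pool.Agent.H254R3.IN

/-- Valuation subrings `O` as in the theorem exist for every prime `p`. -/
theorem exists_place (p : ℕ) [hp : Fact p.Prime] :
    ∃ O : ValuationSubring ℂ, (p : ℂ) ∈ O.nonunits := by
  let A : Subring ℂ := (Int.castRingHom ℂ).range
  have hpA : (p : ℂ) ∈ A := ⟨(p : ℤ), by simp⟩
  let I : Ideal A := Ideal.span {⟨(p : ℂ), hpA⟩}
  have hI : I ≠ ⊤ := by
    intro h
    have h1 : (1 : A) ∈ I := by rw [h]; trivial
    obtain ⟨⟨_, n, rfl⟩, hn⟩ := Ideal.mem_span_singleton'.mp h1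
    have h2 := congrArg Subtype.val hn
    have h3 : (n : ℂ) * (p : ℂ) = 1 := h2
    have h4 : n * (p : ℤ) = 1 := by exact_mod_cast h3
    have h5 : (p : ℤ) ∣ 1 := ⟨n, by rw [mul_comm]; exact h4.symm⟩
    exact hp.out.one_lt.ne' (by exact_mod_cast Int.eq_one_of_dvd_one (by positivity) h5)
  obtain ⟨B, -, hB⟩ := I.image_subset_nonunits_valuationSubring hI
  exact ⟨B, hB ⟨_, Ideal.subset_span rfl, rfl⟩⟩

/-- **Isaacs–Navarro congruences from a perfect isometry.** Let `B` be a `p`-block of the finite
group `G` with defect group `D` and Brauer correspondent `b` in `N_G(D)`.  If `B` and `b` are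
perfectly isometric (in particular, if they are isotypic), then `c_B(γ k) = c_b(k)` for every
integer `k`, where `γ = |G : N_G(D)|_{p'}`. -/
theorem result (p : ℕ) [Fact p.Prime] (O : ValuationSubring ℂ) (hO : (p : ℂ) ∈ O.nonunits)
    (G : Type) [Group G] [Finite G] (D : Subgroup G) (B : Set (G → ℂ))
    (b : Set (Subgroup.normalizer (D : Set G) → ℂ))
    (hB : IsBlock O B) (hD : IsDefectGroup p O B D) (hb : IsBrauerCorrespondent p O D B b)
    (hI : ∃ I : ZIrr B ≃+ ZIrr b, IsPerfectIsometry p O I) (k : ℤ) :
    degCount p B ((pPrimePart p (Subgroup.normalizer (D : Set G)).index : ℤ) * k) =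
      degCount p b k := by
  have := Fintype.ofFinite G
  exact count_eq hO hB hD hb hI k

end Pool.Agent.Results.MP_dc7914_al.IsotypyDegrees
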